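import Pool.Agent.Helper65.FX.St

/-! Project FX, module UNI: one word for a compact set. -/

set_option autoImplicit false

namespace Pool.Agent.Helper86.FX

open Set Topology Metric Filter
open scoped ContDiff
open Pool.Agent.Helper65.FX Pool.Agent.Helper87.FX

private theorem spn_mono {V : Type} [NormedAddCommGroup V] [NormedSpace ℝ V]
    {𝓖 𝓖' : Set (ℂ → V → V)} (h : 𝓖 ⊆ 𝓖') (y : V) : spn 𝓖 y ≤ spn 𝓖' y :=
  Submodule.span_mono (biUnion_subset_biUnion_left h)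

/-- **UNI.** -/
theorem hUNI : StLOC → StENU → StUNI := by
  intro hLOC hENU V _ _ _ P 𝓕 M hP hsurj hF hspn hM hY
  have key : ∃ 𝓖 : Set (ℂ → V → V), 𝓖 ⊆ 𝓕 ∧ 𝓖.Finite ∧
      ∀ y ∈ M, P y = 0 → ∀ v, fderiv ℝ P y v = 0 → v ∈ spn 𝓖 y := by
    refine hM.induction_on (p := fun S => ∃ 𝓖 : Set (ℂ → V → V), 𝓖 ⊆ 𝓕 ∧ 𝓖.Finite ∧
      ∀ y ∈ S, P y = 0 → ∀ v, fderiv ℝ P y v = 0 → v ∈ spn 𝓖 y) ?_ ?_ ?_ ?_
    · exact ⟨∅, empty_subset _, finite_empty, fun y hy => absurd hy (notMem_empty y)⟩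
    · rintro s t hst ⟨𝓖, h1, h2, h3⟩
      exact ⟨𝓖, h1, h2, fun y hy => h3 y (hst hy)⟩
    · rintro s t ⟨𝓖, h1, h2, h3⟩ ⟨𝓖', h1', h2', h3'⟩
      refine ⟨𝓖 ∪ 𝓖', union_subset h1 h1', h2.union h2', fun y hy hy0 v hv => ?_⟩
      rcases hy with hy | hy
      · exact spn_mono subset_union_left y (h3 y hy hy0 v hv)
      · exact spn_mono subset_union_right y (h3' y hy hy0 v hv)
    · intro x hx
      obtain ⟨𝓖, h1, h2, h3⟩ := hLOC V P 𝓕 x hP (hY x hx) (hsurj x (hY x hx)) hF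
        (hspn x (hY x hx))
      exact ⟨_, mem_nhdsWithin_of_mem_nhds h3, 𝓖, h1, h2, fun y hy => hy⟩
  obtain ⟨𝓖, h1, h2, h3⟩ := key
  obtain ⟨N, e, he⟩ : ∃ (N : ℕ) (e : Fin N → ℂ → V → V), range e = 𝓖 := by
    haveI := h2.fintype
    refine ⟨Fintype.card 𝓖, fun k => ((Fintype.equivFin 𝓖).symm k : ℂ → V → V), ?_⟩
    ext g
    constructor
    · rintro ⟨k, rfl⟩
      exact ((Fintype.equivFin 𝓖).symm k).2
    · intro hg
      exact ⟨Fintype.equivFin 𝓖 ⟨g, hg⟩, by simp only [Equiv.symm_apply_apply]⟩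
  refine ⟨N, e, fun k => h1 (he ▸ mem_range_self k), fun y hy v hv => ?_⟩
  have h4 := h3 y hy (hY y hy) v hv
  rw [← he] at h4
  exact (hENU V N e y v).1 h4

end Pool.Agent.Helper86.FX
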