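import Pool.Agent.Helper84.FX.StX

/-! Project FX, module TYT: tameness of `t` on `Y`. -/

set_option autoImplicit false

namespace Pool.Agent.Helper86.FX

open Set Pool.Agent.Helper84.FX Pool.Agent.Helper72.FX

noncomputable section

private abbrev EE := Fin 2 ⊕ Fin 12 → ℂ

/-- the equation of `Y` -/
private def eq (y : EE) : ℂ := y (Sum.inl 0) * y (Sum.inl 1) - FF (fun j => y (Sum.inr j))

private theorem cd_gen (KX KY KZ : EE → ℂ) (hx : ContDiff ℝ 1 KX) (hy : ContDiff ℝ 1 KY)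
    (hz : ContDiff ℝ 1 KZ) : ContDiff ℝ 1 (fun y : EE => y (Sum.inl 0) * y (Sum.inl 1) -
      ((2 * y (Sum.inr 1) + y (Sum.inr 2) * y (Sum.inr 1) ^ 2 - y (Sum.inr 0) ^ 2
          - y (Sum.inr 3) * y (Sum.inr 4) - y (Sum.inr 5) * y (Sum.inr 6)) * y (Sum.inr 10) +
        (-(y (Sum.inr 6) * y (Sum.inr 4) * (y (Sum.inr 2) * KX y * KY y - KZ y ^ 2)) +
          (y (Sum.inr 8) - y (Sum.inr 7)) + y (Sum.inr 5) *
          (y (Sum.inr 2) * y (Sum.inr 6) * KX y * y (Sum.inr 8) +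
            y (Sum.inr 2) * y (Sum.inr 6) * KY y * y (Sum.inr 7) +
            y (Sum.inr 2) * y (Sum.inr 3) * y (Sum.inr 7) * y (Sum.inr 8) -
            2 * y (Sum.inr 6) * KZ y * y (Sum.inr 9) - y (Sum.inr 3) * y (Sum.inr 9) ^ 2)) *
          y (Sum.inr 11) - (y (Sum.inr 5) - y (Sum.inr 3)))) := by
  fun_prop

private theorem cd_k (k : ℂ → ℂ → ℂ → ℂ)
    (h : ContDiff ℂ (⊤ : ℕ∞) (fun q : ℂ × ℂ × ℂ => k q.1 q.2.1 q.2.2)) :
    ContDiff ℝ 1 (fun y : EE => k (y (Sum.inr 0)) (y (Sum.inr 1)) (y (Sum.inr 2))) := by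
  have h1 : ContDiff ℝ 1 (fun q : ℂ × ℂ × ℂ => k q.1 q.2.1 q.2.2) :=
    (h.restrict_scalars ℝ).of_le (by exact_mod_cast le_top)
  have h2 : ContDiff ℝ 1 (fun y : EE => (y (Sum.inr 0), y (Sum.inr 1), y (Sum.inr 2))) := by
    fun_prop
  exact h1.comp h2

private theorem cd_eq (hK : StKSM) : ContDiff ℝ 1 eq := by
  obtain ⟨hx, hy, hz, -, -⟩ := hK
  exact cd_gen _ _ _ (cd_k (fun a b t => kx a b t) hx) (cd_k (fun a b t => ky a b t) hy)
    (cd_k (fun a b t => kz a b t) hz)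

private theorem line (y v : EE) (c : ℂ) (L : EE →L[ℝ] ℂ) (hL : HasFDerivAt eq L y)
    (h : ∀ r : ℝ, eq (y + r • v) = eq y + r • c) : L v = c := by
  have h1 := hL.hasLineDerivAt v
  unfold HasLineDerivAt at h1
  have h2 : HasDerivAt (fun r : ℝ => eq (y + r • v)) c 0 := by
    have e1 : (fun r : ℝ => eq (y + r • v)) = fun r : ℝ => eq y + r • c := funext h
    rw [e1]
    have h3 : HasDerivAt (fun r : ℝ => r • c) ((1 : ℝ) • c) 0 := (hasDerivAt_id (0 : ℝ)).smul_const c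
    rw [one_smul] at h3
    exact h3.const_add (eq y)
  exact h1.unique h2

private theorem dir (y : EE) (L : EE →L[ℝ] ℂ) (hL : HasFDerivAt eq L y)
    (ht : y (Sum.inr 2) = 0) : ∃ (i : Fin 12) (c : ℂ), i ≠ 2 ∧ c ≠ 0 ∧
      ∀ s : ℂ, L (Pi.single (Sum.inr i) s) = s * c := by
  by_cases h2 : y (Sum.inr 11) = 0
  · by_cases h1 : y (Sum.inr 10) = 0
    · refine ⟨5, 1, by decide, one_ne_zero, fun s => line y _ _ L hL fun r => ?_⟩
      simp only [eq, FF, Pi.add_apply, Pi.smul_apply, Pi.single_apply, Sum.inr.injEq,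
        Fin.reduceEq, reduceCtorEq, if_false, if_true, smul_zero, add_zero, h1, h2,
        mul_zero, Complex.real_smul]
      ring
    · refine ⟨1, -2 * y (Sum.inr 10), by decide, ?_, fun s => line y _ _ L hL fun r => ?_⟩
      · exact mul_ne_zero (by norm_num) h1
      simp only [eq, FF, E1, nu, Pi.add_apply, Pi.smul_apply, Pi.single_apply, Sum.inr.injEq,
        Fin.reduceEq, reduceCtorEq, if_false, if_true, smul_zero, add_zero, h2, ht,
        mul_zero, zero_mul, Complex.real_smul]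
      ring
  · refine ⟨8, -y (Sum.inr 11), by decide, neg_ne_zero.2 h2, fun s => line y _ _ L hL fun r => ?_⟩
    simp only [eq, FF, E1, E2, nu, Pi.add_apply, Pi.smul_apply, Pi.single_apply, Sum.inr.injEq,
        Fin.reduceEq, reduceCtorEq, if_false, if_true, smul_zero, add_zero, ht,
        zero_mul, Complex.real_smul]
    ring

/-- **TYT.** -/
theorem hTYT : StTMC → StKSM → StEV → StTYT := by
  intro hTMC hK hEV
  constructor
  · have h := hTMC EE ℂ ℂ univ eq tY isOpen_univ (cd_eq hK).contDiffOn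
      (by unfold tY; exact ContDiff.contDiffOn (by fun_prop)) ?_
    · have e1 : {x : EE | x ∈ univ ∧ eq x = 0} = YY FP := by
        ext y
        change (y ∈ (univ : Set EE) ∧ eq y = 0) ↔ y (Sum.inl 0) * y (Sum.inl 1) =
          MvPolynomial.eval (fun j => y (Sum.inr j)) FP
        rw [hEV]
        exact ⟨fun h => sub_eq_zero.1 h.2, fun h => ⟨mem_univ _, sub_eq_zero.2 h⟩⟩
      rw [e1] at h
      exact h
    · intro y _ _ ht
      have hd : HasFDerivAt eq (fderiv ℝ eq y) y :=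
        ((cd_eq hK).differentiable (by norm_num)).differentiableAt.hasFDerivAt
      have hg : HasFDerivAt tY (ContinuousLinearMap.proj (R := ℝ) (φ := fun _ : Fin 2 ⊕ Fin 12 => ℂ)
          (Sum.inr 2)) y :=
        (ContinuousLinearMap.proj (R := ℝ) (φ := fun _ : Fin 2 ⊕ Fin 12 => ℂ)
          (Sum.inr 2)).hasFDerivAt
      rw [(hd.prodMk hg).fderiv]
      obtain ⟨i, c, hi, hc, hs⟩ := dir y _ hd ht
      rintro ⟨α, β⟩
      set D := fderiv ℝ eq y with hD
      refine ⟨Pi.single (Sum.inr 2) β + Pi.single (Sum.inr i)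
        ((α - D (Pi.single (Sum.inr 2) β)) / c), ?_⟩
      refine Prod.ext ?_ ?_
      · change D (Pi.single (Sum.inr 2) β + Pi.single (Sum.inr i)
          ((α - D (Pi.single (Sum.inr 2) β)) / c)) = α
        rw [map_add, hs, div_mul_cancel₀ _ hc]
        ring
      · change (Pi.single (Sum.inr 2) β + Pi.single (Sum.inr i)
          ((α - D (Pi.single (Sum.inr 2) β)) / c) : EE) (Sum.inr 2) = β
        rw [Pi.add_apply, Pi.single_eq_same, Pi.single_eq_of_ne (by
          intro h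
          exact hi (Sum.inr.inj h).symm), add_zero]
  · have h := hTMC ℂ ℂ (Fin 0 → ℝ) univ (fun _ => 0) (fun t => t) isOpen_univ contDiffOn_const
      contDiffOn_id ?_
    · have e1 : {x : ℂ | x ∈ (univ : Set ℂ) ∧ (fun _ : ℂ => (0 : Fin 0 → ℝ)) x = 0} = univ := by
        ext y
        exact ⟨fun _ => mem_univ _, fun _ => ⟨mem_univ _, rfl⟩⟩
      rw [e1] at h
      exact h
    · intro t _ _ _
      have hd : HasFDerivAt (fun y : ℂ => ((0 : Fin 0 → ℝ), y))
          ((0 : ℂ →L[ℝ] (Fin 0 → ℝ)).prod (ContinuousLinearMap.id ℝ ℂ)) t :=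
        (hasFDerivAt_const _ _).prodMk (hasFDerivAt_id t)
      rw [hd.fderiv]
      rintro ⟨α, β⟩
      exact ⟨β, Prod.ext (Subsingleton.elim _ _) rfl⟩

end

end Pool.Agent.Helper86.FX
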